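import Pool.Agent.helper67.TPE.Spec
import Pool.Agent.helper29.OC.PIAP

/-! # MP_ebc808_nt, row tpe:CNG -/

set_option autoImplicit false

open Finset PowerSeries

noncomputable section

namespace Pool.Agent.TPE

open Pool.Agent.EP Pool.Agent.PQ

/-- the size of `n` -/
theorem CNG_size (B Q₁ Q₂ P R n y D : ℕ) (hP : P ≤ 2 * y) (hR : R ≤ 2 * y) (hD : Q₁ * Q₂ ≤ D)
    (h : RelP B Q₁ Q₂ P R n) : n ≤ D * y ^ 2 := by
  have h1 : Q₁ * P * (Q₂ * R) ≤ 4 * (D * y ^ 2) := by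
    calc Q₁ * P * (Q₂ * R) = (Q₁ * Q₂) * (P * R) := by ring
      _ ≤ D * ((2 * y) * (2 * y)) := Nat.mul_le_mul hD (Nat.mul_le_mul hP hR)
      _ = 4 * (D * y ^ 2) := by ring
  obtain ⟨u, ⟨-, h2⟩ | ⟨-, h2⟩⟩ := h
  · have h3 : Q₁ * P * (Q₂ * R - B * u ^ 2) ≤ Q₁ * P * (Q₂ * R) := Nat.mul_le_mul_left _ (Nat.sub_le _ _)
    omega
  · have h3 : (Q₁ * P - B * u ^ 2) * (Q₂ * R) ≤ Q₁ * P * (Q₂ * R) := Nat.mul_le_mul_right _ (Nat.sub_le _ _)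
    omega

theorem CNG (hCNL : CNL_stmt) (hCLR : CLR_stmt) (hQUG : QUG_stmt) (hGRD : GRD_stmt) (hCRG : CRG_stmt) : CNG_stmt := by
  classical
  intro hLQG i a g
  obtain ⟨κ, T, sA, sC, m, cA, cC, hTg, hD5⟩ := hCRG i a g
  obtain ⟨c₀, x₀, hc₀, hpr⟩ := Pool.Agent.helper7.OC.primes_ap_unif m hD5.m0
  have hT0 : 0 < T := by omega
  have hTR : (0 : ℝ) < T := by exact_mod_cast hT0
  have hQA : ∀ x < T, 0 < ∏ q ∈ sA x, q := fun x hx => Finset.prod_pos fun q hq => (hD5.hA x hx q hq).1.pos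
  have hQC : ∀ x < T, 0 < ∏ q ∈ sC x, q := fun x hx => Finset.prod_pos fun q hq => (hD5.hC x hx q hq).1.pos
  obtain ⟨cE, hcE⟩ : ∃ cE : ℝ, cE = c₀ ^ 2 / (T : ℝ) ^ 2 := ⟨_, rfl⟩
  have hcE0 : 0 < cE := by rw [hcE]; positivity
  -- the constants of CNL
  have hall : ∀ x y : ℕ, ∃ (c₁ : ℝ) (y₁ : ℕ), 0 < c₁ ∧ (x < T → y < T →
      ∀ Y : ℕ, y₁ ≤ Y → ∀ (U : Finset (ℕ × ℕ)) (V : Finset ℕ), U ⊆ Ioc Y (2 * Y) ×ˢ Ioc Y (2 * Y) →
        (∀ z ∈ U, z.1.Prime ∧ z.2.Prime) →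
        (∀ z ∈ U, ¬ ExcP (2 ^ (2 * κ + 1)) (∏ q ∈ sA x, q) (∏ q ∈ sC y, q) z.1 z.2 →
          ∃ n ∈ V, RelP (2 ^ (2 * κ + 1)) (∏ q ∈ sA x, q) (∏ q ∈ sC y, q) z.1 z.2 n) →
        cE * (Y : ℝ) ^ 2 / Real.log Y ^ 2 ≤ #U → c₁ * (Y : ℝ) ^ (3 / 2 : ℝ) / Real.log Y ^ 2 ≤ #V) := by
    intro x y
    by_cases hx : x < T
    · by_cases hy : y < T
      · obtain ⟨c₁, y₁, h1, h2⟩ := hCNL (2 ^ (2 * κ + 1)) (∏ q ∈ sA x, q) (∏ q ∈ sC y, q) cE (by positivity)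
          (hQA x hx) (hQC y hy) hcE0
        exact ⟨c₁, y₁, h1, fun _ _ => h2⟩
      · exact ⟨1, 0, one_pos, fun _ h => absurd h hy⟩
    · exact ⟨1, 0, one_pos, fun h _ => absurd h hx⟩
  choose c1 y1 hc1 hcnl using hall
  obtain ⟨D, hD⟩ : ∃ D : ℕ, D = (∑ x ∈ range T, ∏ q ∈ sA x, q + 1) * (∑ y ∈ range T, ∏ q ∈ sC y, q + 1) := ⟨_, rfl⟩
  have hD0 : 0 < D := by rw [hD]; positivity
  have hDle : ∀ x < T, ∀ y < T, (∏ q ∈ sA x, q) * (∏ q ∈ sC y, q) ≤ D := by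
    intro x hx y hy
    rw [hD]
    refine Nat.mul_le_mul ?_ ?_
    · exact (Finset.single_le_sum (f := fun x => ∏ q ∈ sA x, q) (fun _ _ => Nat.zero_le _) (mem_range.2 hx)).trans
        (Nat.le_succ _)
    · exact (Finset.single_le_sum (f := fun y => ∏ q ∈ sC y, q) (fun _ _ => Nat.zero_le _) (mem_range.2 hy)).trans
        (Nat.le_succ _)
  obtain ⟨c, hc⟩ : ∃ c : ℝ, c = (1 + ∑ z ∈ range T ×ˢ range T, (c1 z.1 z.2)⁻¹)⁻¹ := ⟨_, rfl⟩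
  have hsum0 : 0 ≤ ∑ z ∈ range T ×ˢ range T, (c1 z.1 z.2)⁻¹ :=
    Finset.sum_nonneg fun z _ => (inv_pos.2 (hc1 z.1 z.2)).le
  have hc0 : 0 < c := by rw [hc]; positivity
  have hcle : ∀ x < T, ∀ y < T, c ≤ c1 x y := by
    intro x hx y hy
    have h1 : (c1 x y)⁻¹ ≤ ∑ z ∈ range T ×ˢ range T, (c1 z.1 z.2)⁻¹ :=
      Finset.single_le_sum (f := fun z : ℕ × ℕ => (c1 z.1 z.2)⁻¹) (fun z _ => (inv_pos.2 (hc1 z.1 z.2)).le)
        (show (x, y) ∈ range T ×ˢ range T from mem_product.2 ⟨mem_range.2 hx, mem_range.2 hy⟩)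
    rw [hc]
    refine inv_le_of_inv_le₀ (hc1 x y) ?_
    linarith
  refine ⟨D, x₀ + ∑ z ∈ range T ×ˢ range T, y1 z.1 z.2 + ∑ x ∈ range T, ∑ q ∈ sA x, q +
    ∑ x ∈ range T, ∑ q ∈ sC x, q, c, hD0, hc0, ?_⟩
  intro S _ op F Φ hF hS Y hY
  have hYx : x₀ ≤ Y := by omega
  have hYc : ∀ x < T, ∀ y < T, y1 x y ≤ Y := by
    intro x hx y hy
    have h1 : y1 x y ≤ ∑ z ∈ range T ×ˢ range T, y1 z.1 z.2 :=
      Finset.single_le_sum (f := fun z : ℕ × ℕ => y1 z.1 z.2) (fun z _ => Nat.zero_le _)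
        (show (x, y) ∈ range T ×ˢ range T from mem_product.2 ⟨mem_range.2 hx, mem_range.2 hy⟩)
    omega
  have hYA : ∀ x < T, ∀ q ∈ sA x, q ≤ Y := by
    intro x hx q hq
    have h1 : q ≤ ∑ q ∈ sA x, q := Finset.single_le_sum (f := fun q => q) (fun z _ => Nat.zero_le _) hq
    have h2 : ∑ q ∈ sA x, q ≤ ∑ x ∈ range T, ∑ q ∈ sA x, q :=
      Finset.single_le_sum (f := fun x => ∑ q ∈ sA x, q) (fun z _ => Nat.zero_le _) (mem_range.2 hx)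
    omega
  have hYC : ∀ x < T, ∀ q ∈ sC x, q ≤ Y := by
    intro x hx q hq
    have h1 : q ≤ ∑ q ∈ sC x, q := Finset.single_le_sum (f := fun q => q) (fun z _ => Nat.zero_le _) hq
    have h2 : ∑ q ∈ sC x, q ≤ ∑ x ∈ range T, ∑ q ∈ sC x, q :=
      Finset.single_le_sum (f := fun x => ∑ q ∈ sC x, q) (fun z _ => Nat.zero_le _) (mem_range.2 hx)
    omega
  obtain ⟨r, hr⟩ : ∃ r : ℕ → ZMod 2, r = fun n => Φ (F (24 * n - 1)) := ⟨_, rfl⟩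
  obtain ⟨A, hA⟩ : ∃ A : ℕ → Finset ℕ, A = fun x => (Ioc Y (2 * Y)).filter fun p => p.Prime ∧ p % m = cA x % m := ⟨_, rfl⟩
  obtain ⟨C, hC⟩ : ∃ C : ℕ → Finset ℕ, C = fun x => (Ioc Y (2 * Y)).filter fun p => p.Prime ∧ p % m = cC x % m := ⟨_, rfl⟩
  obtain ⟨E, hE⟩ : ∃ E : ℕ → ℕ → Finset (ℕ × ℕ), E = fun x y => (A x ×ˢ C y).filter fun z =>
    BadR (2 * κ + 1) (∏ q ∈ sA x, q) (∏ q ∈ sC y, q) z.1 z.2 r := ⟨_, rfl⟩
  obtain ⟨N, hN⟩ : ∃ N : ℕ, N = ⌈c₀ * (Y : ℝ) / Real.log Y⌉₊ := ⟨_, rfl⟩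
  have hAN : ∀ x < T, N ≤ #(A x) := by
    intro x hx
    rw [hN, Nat.ceil_le, hA]
    exact hpr (cA x) (hD5.cpA x hx) Y hYx
  have hCN : ∀ x < T, N ≤ #(C x) := by
    intro x hx
    rw [hN, Nat.ceil_le, hC]
    exact hpr (cC x) (hD5.cpC x hx) Y hYx
  have hgrid : ∀ p q : ℕ → ℕ, (∀ x < T, p x ∈ A x) → (∀ y < T, q y ∈ C y) → ∃ x < T, ∃ y < T, (p x, q y) ∈ E x y := by
    intro p q hp hq
    obtain ⟨x, hx, y, hy, hb⟩ := hGRD hLQG S op F Φ hF i a κ T g sA sC m cA cC hS hTg hD5 p q (by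
        intro x hx
        have h1 := hp x hx
        rw [hA] at h1
        dsimp only at h1
        rw [mem_filter, mem_Ioc] at h1
        refine ⟨h1.2.1, h1.2.2, fun h2 => ?_⟩
        have := hYA x hx _ h2
        omega) (by
        intro x hx
        have h1 := hq x hx
        rw [hC] at h1
        dsimp only at h1
        rw [mem_filter, mem_Ioc] at h1
        refine ⟨h1.2.1, h1.2.2, fun h2 => ?_⟩
        have := hYC x hx _ h2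
        omega)
    refine ⟨x, hx, y, hy, ?_⟩
    rw [hE]
    dsimp only
    rw [mem_filter, mem_product]
    refine ⟨⟨hp x hx, hq y hy⟩, ?_⟩
    rw [hr]
    exact hb
  have hsum := hQUG T N A C E hAN hCN hgrid
  -- one of the sets is large
  obtain ⟨⟨x, y⟩, hxy, hlarge⟩ : ∃ z ∈ range T ×ˢ range T, (N : ℝ) ^ 2 / (T : ℝ) ^ 2 ≤ (#(E z.1 z.2) : ℝ) := by
    refine Finset.exists_le_of_sum_le (f := fun _ => (N : ℝ) ^ 2 / (T : ℝ) ^ 2) (g := fun z : ℕ × ℕ => (#(E z.1 z.2) : ℝ))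
      ⟨(0, 0), mem_product.2 ⟨mem_range.2 hT0, mem_range.2 hT0⟩⟩ ?_
    rw [Finset.sum_const, card_product, card_range, nsmul_eq_mul, Finset.sum_product]
    have h1 : ((T * T : ℕ) : ℝ) * ((N : ℝ) ^ 2 / (T : ℝ) ^ 2) = (N : ℝ) ^ 2 := by
      push_cast
      field_simp
    rw [h1]
    exact_mod_cast hsum
  rw [mem_product, mem_range, mem_range] at hxy
  obtain ⟨hx, hy⟩ := hxy
  dsimp only at hx hy hlarge
  have hNle : c₀ * (Y : ℝ) / Real.log Y ≤ N := by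
    rw [hN]
    exact Nat.le_ceil _
  have hbase0 : 0 ≤ c₀ * (Y : ℝ) / Real.log Y := by
    apply div_nonneg (by positivity)
    exact Real.log_natCast_nonneg Y
  have hU : cE * (Y : ℝ) ^ 2 / Real.log Y ^ 2 ≤ #(E x y) := by
    refine le_trans ?_ hlarge
    have h1 : (c₀ * (Y : ℝ) / Real.log Y) ^ 2 ≤ (N : ℝ) ^ 2 := pow_le_pow_left₀ hbase0 hNle 2
    have h2 : cE * (Y : ℝ) ^ 2 / Real.log Y ^ 2 = (c₀ * (Y : ℝ) / Real.log Y) ^ 2 / (T : ℝ) ^ 2 := by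
      rw [hcE, div_pow, mul_pow]
      ring
    rw [h2]
    exact div_le_div_of_nonneg_right h1 (by positivity)
  have hEsub : E x y ⊆ Ioc Y (2 * Y) ×ˢ Ioc Y (2 * Y) := by
    intro z hz
    rw [hE] at hz
    dsimp only at hz
    rw [mem_filter, mem_product, hA, hC] at hz
    dsimp only at hz
    rw [mem_filter, mem_filter] at hz
    exact mem_product.2 ⟨hz.1.1.1, hz.1.2.1⟩
  have hfin := hcnl x y hx hy Y (hYc x hx y hy) (E x y)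
    {n ∈ range (D * Y ^ 2 + 1) | n % 2 ^ i = a % 2 ^ i ∧ pp n ≠ r n} hEsub (by
      intro z hz
      rw [hE] at hz
      dsimp only at hz
      rw [mem_filter, mem_product, hA, hC] at hz
      dsimp only at hz
      rw [mem_filter, mem_filter] at hz
      exact ⟨hz.1.1.2.1, hz.1.2.2.1⟩) (by
      intro z hz hex
      rw [hE] at hz
      dsimp only at hz
      rw [mem_filter, mem_product, hA, hC] at hz
      dsimp only at hz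
      rw [mem_filter, mem_filter, mem_Ioc, mem_Ioc] at hz
      obtain ⟨⟨⟨⟨-, h1⟩, -, h2⟩, ⟨-, h3⟩, -, h4⟩, h5⟩ := hz
      rcases h5 with h5 | ⟨n, hn, hne⟩
      · exact absurd h5 hex
      · refine ⟨n, ?_, hn⟩
        rw [mem_filter, mem_range]
        refine ⟨?_, ?_, hne⟩
        · have := CNG_size _ _ _ _ _ _ Y D h1 h3 (hDle x hx y hy) hn
          omega
        · exact hCLR (2 * κ + 1) i _ _ _ _ n a hD5.ib hn (hD5.cls x hx y hy _ _ h2 h4)) hU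
  refine le_trans ?_ (hfin.trans (le_of_eq ?_))
  · have h1 : c * (Y : ℝ) ^ (3 / 2 : ℝ) ≤ c1 x y * (Y : ℝ) ^ (3 / 2 : ℝ) :=
      mul_le_mul_of_nonneg_right (hcle x hx y hy) (Real.rpow_nonneg (Nat.cast_nonneg Y) _)
    exact div_le_div_of_nonneg_right h1 (by positivity)
  · rw [hr]
    rfl

end Pool.Agent.TPE
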